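import Pool.Agent.Y95.KM.Mv

/-!
# The movable cone conjecture for varieties with numerically trivial canonical class, from the
# factors of the Beauville–Bogomolov decomposition

Let `Y` be a smooth projective variety with `K_Y ≡ 0`. By the theorem of Beauville and Bogomolov
there is a finite étale Galois cover `P → Y` with group `G`, where `P` is a product of varieties `X i`
(an abelian variety, hyperkähler manifolds, simply connected Calabi–Yau manifolds). If the movable
cone conjecture holds for each `X i`, then it holds for `Y`.

The birational self-maps of `P` which commute with `G` induce birational self-maps of `Y`; the group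
`Bir(P)` contains the divisible group `Aut⁰(P)`, which acts trivially on `N^1(P)`, and the finiteness
of `H^1(G, Aut⁰(P))` enters in the proof.
-/

set_option autoImplicit false

namespace Pool.Agent.Results.MP_e39d36_ag.MovableDecomposition

open Pool.Agent.Y95.KM

theorem result {ι : Type*} [Fintype ι] {W A : ι → Type*} [∀ i, NormedAddCommGroup (W i)]
    [∀ i, NormedSpace ℝ (W i)] [∀ i, Group (A i)] {B : Type*} [Group B]
    {V C : Type*} [NormedAddCommGroup V] [NormedSpace ℝ V] [Group C]
    -- the factors, their product `P`, and the quotient `Y` of `P` by the finite group `G`
    (X : ∀ i, MvNum (W i) (A i)) (P : MvNum (∀ i, W i) B) (Y : MvNum V C)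
    (G : Subgroup B) [Finite G] (q : V →ₗ[ℝ] (∀ i, W i))
    (hX : ∀ i, (X i).Good) (hP : P.Good) (hY : Y.Good)
    (hprod : MvNum.IsProduct X P) (hker : P.AbelianKernel) (hquot : P.IsQuotient G Y q)
    -- the movable cone conjecture for the factors
    (hconj : ∀ i, (X i).ConeConj) :
    -- the movable cone conjecture for `Y`
    Y.ConeConj :=
  MvNum.descend hP hker hY hquot (MvNum.product hX hP hprod hconj)

end Pool.Agent.Results.MP_e39d36_ag.MovableDecomposition
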